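import Pool.Agent.Q205.Wand.Flow

/-!
# Herman's question: nonwandering, recurrent, bounded and escaping orbits

`φ` is a complete continuous flow on a locally compact Hausdorff space `X` with countable basis (for
instance the flow of `H_E` on `H_E⁻¹(0)`), preserving a measure `μ` which is finite on compact sets
and positive on nonempty open sets (for instance the Liouville measure of the energy surface).
-/

set_option autoImplicit false

namespace Pool.Agent.Results.MP_70f7a7_an.BoundedAndEscapingOrbits

open Filter Topology Set MeasureTheory Pool.Agent.Q205.Wand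

/-- the assertion of the question: the set of nonwandering points is nowhere dense -/
def NonwanderingNowhereDense {X : Type*} [TopologicalSpace X] (φ : ℝ → X → X) : Prop :=
  IsNowhereDense {x | ¬ Wandering φ x}

/-- the forward orbit of `x` stays in a compact set -/
def BoundedForward {X : Type*} [TopologicalSpace X] (φ : ℝ → X → X) (x : X) : Prop :=
  ∃ K : Set X, IsCompact K ∧ ∀ t : ℝ, 0 ≤ t → φ t x ∈ K

theorem isOpen_wandering {X : Type*} [TopologicalSpace X] (φ : ℝ → X → X) :
    IsOpen {x | Wandering φ x} := by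
  rw [isOpen_iff_mem_nhds]
  rintro x ⟨V, hV, hx, T, hT⟩
  filter_upwards [hV.mem_nhds hx] with y hy
  exact ⟨V, hV, hy, T, hT⟩

theorem nnd_iff {X : Type*} [TopologicalSpace X] (φ : ℝ → X → X) :
    NonwanderingNowhereDense φ ↔ Dense {x | Wandering φ x} := by
  have hc : IsClosed {x | ¬ Wandering φ x} := (isOpen_wandering φ).isClosed_compl
  unfold NonwanderingNowhereDense
  rw [hc.isNowhereDense_iff, interior_eq_empty_iff_dense_compl]
  have : {x | ¬ Wandering φ x}ᶜ = {x | Wandering φ x} := by ext x; simp
  rw [this]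

theorem not_recurrent_of_wandering {X : Type*} [TopologicalSpace X] {φ : ℝ → X → X} {x : X}
    (h : Wandering φ x) : ¬ Recurrent φ x := by
  obtain ⟨V, hV, hx, T, hT⟩ := h
  intro hr
  obtain ⟨t, ht, hxt⟩ := hr V (hV.mem_nhds hx) T
  exact hT t ht x hx hxt

/-- **Theorem.**
1. The nonwandering set is nowhere dense if and only if the set of recurrent points is nowhere dense,
   if and only if the nonrecurrent points are nonmeagre in every nonempty open set.
2. If the nonwandering set is nowhere dense, there is an open dense set in which almost every point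
   has an orbit which leaves every compact set, both as `t → +∞` and as `t → -∞`.
3. Let `U` be an open set such that in every nonempty open subset of `U` the points whose forward
   orbits stay in compact sets are not of measure zero. Then all points of `U` are nonwandering, and
   generic points of `U` are recurrent in both directions of time. So if `U` is not empty, the
   nonwandering set is not nowhere dense. -/
theorem result {X : Type*} [TopologicalSpace X] [LocallyCompactSpace X]
    [SecondCountableTopology X] [T2Space X] [MeasurableSpace X] [BorelSpace X] {φ : ℝ → X → X}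
    (h : IsFlow φ) (μ : Measure X) [IsFiniteMeasureOnCompacts μ] [μ.IsOpenPosMeasure]
    (hμ : ∀ t, MeasurePreserving (φ t) μ μ) :
    ((NonwanderingNowhereDense φ ↔ IsNowhereDense {x | Recurrent φ x}) ∧
      (NonwanderingNowhereDense φ ↔
        ∀ U : Set X, IsOpen U → U.Nonempty → ¬ IsMeagre {x | x ∈ U ∧ ¬ Recurrent φ x})) ∧
    (NonwanderingNowhereDense φ → ∃ W : Set X, IsOpen W ∧ Dense W ∧
      ∀ᵐ x ∂μ, x ∈ W → Escapes φ x ∧ Escapes (rev φ) x) ∧
    (∀ U : Set X, IsOpen U →
      (∀ V : Set X, IsOpen V → V.Nonempty → V ⊆ U → μ {x | x ∈ V ∧ BoundedForward φ x} ≠ 0) →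
      (∀ x ∈ U, ¬ Wandering φ x) ∧
      (∀ᶠ x in residual X, x ∈ U → Recurrent φ x ∧ Recurrent (rev φ) x) ∧
      (U.Nonempty → ¬ NonwanderingNowhereDense φ)) := by
  have hnonrec : (∀ U : Set X, IsOpen U → U.Nonempty → ¬ IsMeagre {x | x ∈ U ∧ ¬ Recurrent φ x}) →
      NonwanderingNowhereDense φ := by
    intro hall
    rw [nnd_iff]
    by_contra hnd
    have hne : ((closure {x | Wandering φ x})ᶜ).Nonempty := by
      by_contra hemp
      rw [Set.not_nonempty_iff_eq_empty, Set.compl_empty_iff] at hemp
      exact hnd (dense_iff_closure_eq.2 hemp)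
    have ho : IsOpen (closure {x | Wandering φ x})ᶜ := isClosed_closure.isOpen_compl
    apply hall _ ho hne
    have h1 := residual_recurrent h ho (fun x hx hw => hx (subset_closure hw))
    unfold IsMeagre
    filter_upwards [h1] with x hx
    rintro ⟨hx1, hx2⟩
    exact hx2 (hx hx1)
  have hdense_rec : NonwanderingNowhereDense φ → IsNowhereDense {x | Recurrent φ x} := by
    intro hn
    refine IsNowhereDense.mono ?_ hn
    intro x hx hw
    exact not_recurrent_of_wandering hw hx
  have hrec_non : IsNowhereDense {x | Recurrent φ x} →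
      ∀ U : Set X, IsOpen U → U.Nonempty → ¬ IsMeagre {x | x ∈ U ∧ ¬ Recurrent φ x} := by
    intro hn U hU hne hm
    have h1 : (closure {x | Recurrent φ x})ᶜ ∈ residual X :=
      residual_of_dense_open isClosed_closure.isOpen_compl
        (interior_eq_empty_iff_dense_compl.1 hn)
    unfold IsMeagre at hm
    obtain ⟨x, hxU, hx1, hx2⟩ := (dense_of_mem_residual (inter_mem h1 hm)).inter_open_nonempty U hU
      hne
    exact hx2 ⟨hxU, fun hr => hx1 (subset_closure hr)⟩
  refine ⟨⟨⟨hdense_rec, fun hr => hnonrec (hrec_non hr)⟩,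
    ⟨fun hn => hrec_non (hdense_rec hn), hnonrec⟩⟩, ?_, ?_⟩
  · intro hn
    refine ⟨{x | Wandering φ x}, isOpen_wandering φ, (nnd_iff φ).1 hn, ?_⟩
    set ℬ := TopologicalSpace.countableBasis X
    haveI : Countable ℬ := (TopologicalSpace.countable_countableBasis X).to_subtype
    have key : ∀ a : ℬ × ℕ, ∀ᵐ x ∂μ, (∀ t : ℝ, (a.2 : ℝ) < t → ∀ y ∈ (a.1 : Set X),
        φ t y ∉ (a.1 : Set X)) → x ∈ (a.1 : Set X) → Escapes φ x ∧ Escapes (rev φ) x := by
      rintro ⟨B, n⟩
      by_cases hB : ∀ t : ℝ, (n : ℝ) < t → ∀ y ∈ (B : Set X), φ t y ∉ (B : Set X)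
      · filter_upwards [escape_of_wandering h μ hμ
          (TopologicalSpace.isOpen_of_mem_countableBasis B.2) hB] with x hx _
        exact hx
      · exact ae_of_all _ fun x hx => absurd hx hB
    filter_upwards [ae_all_iff.2 key] with x hx hw
    obtain ⟨V, hV, hxV, T, hT⟩ := hw
    obtain ⟨B, hB, hxB, hBV⟩ := (TopologicalSpace.isBasis_countableBasis X).mem_nhds_iff.1
      (hV.mem_nhds hxV)
    obtain ⟨n, hn⟩ := exists_nat_ge T
    exact hx ((⟨B, hB⟩ : ℬ), n) (fun t ht y hy hyt => hT t (lt_of_le_of_lt hn ht) y (hBV hy)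
      (hBV hyt)) hxB
  · intro U hU hall
    have hw : ∀ x ∈ U, ¬ Wandering φ x := by
      rintro x hxU ⟨V, hV, hxV, T, hT⟩
      apply hall (V ∩ U) (hV.inter hU) ⟨x, hxV, hxU⟩ inter_subset_right
      have h1 := escape_of_wandering h μ hμ hV hT
      refine measure_mono_null ?_ h1
      rintro y ⟨⟨hyV, _⟩, K, hK, hyK⟩ hy
      have h2 : ∀ᶠ t : ℝ in atTop, φ t y ∉ K := (hy hyV).1.eventually hK.compl_mem_cocompact
      obtain ⟨t, ht1, ht2⟩ := (h2.and (eventually_ge_atTop 0)).exists
      exact ht1 (hyK t ht2)
    have h1 := residual_recurrent h hU hw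
    have h2 := residual_recurrent h.rev hU (fun x hx hwr => hw x hx ((wandering_rev h x).1 hwr))
    refine ⟨hw, ?_, ?_⟩
    · filter_upwards [h1, h2] with x hx1 hx2 hxU
      exact ⟨hx1 hxU, hx2 hxU⟩
    · intro hne hn
      obtain ⟨x, hxU, hxw⟩ := ((nnd_iff φ).1 hn).inter_open_nonempty U hU hne
      exact hw x hxU hxw

end Pool.Agent.Results.MP_70f7a7_an.BoundedAndEscapingOrbits
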