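import Pool.Agent.Q205.Liou.Herm2

/-!
# The spatial `N`-body problem: compact motions and Herman's question for all negative energies

The definitions are in `Pool/Agent/Q205/Liou/{Spatial,Herm,Herm2}.lean` and are those of the problem
(and of its frozen statements):

* `Phase N`, positions and momenta of `N` bodies in `R3`; `hvf m`, the Hamiltonian vector field;
  `Free z`, no collisions; `IsCom m z`, centre of mass `0` and total momentum `0`; `energy m z`;
  `IsSol m J y`, `y` is a solution of the reduced problem on the time set `J`;
* `surface m E`, the energy surface; `IsReparametrizedFlow m E ψ φ`, `φ` is the complete flow on
  `surface m E` obtained by the smooth positive change of time `ψ`; `IsNonwandering`;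
* `HermanAt m E`: for every reparametrized flow on `surface m E` the nonwandering set is nowhere
  dense;
* `CompactForward m z`: the solution starting at `z` exists for all positive times and stays in a
  compact set of collision free phase points; `RecurrentForward m z`: it exists for all positive
  times and returns arbitrarily close to `z` at arbitrarily large times;
* `AlmostEvery m P`: in linear coordinates on the space `IsCom m` the property `P` holds Lebesgue
  almost everywhere; `LocallyPositive m U`: in no nonempty open subset of `U` (of the reduced phase
  space) the points with `CompactForward` form a null set;
* `OpenNonwandering m E`: there is a nonempty open subset of `surface m E` in which recurrent points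
  are dense and which consists of nonwandering points of every reparametrized flow;
* `Stable m K`: Lyapunov stability of the set `K`.
-/

set_option autoImplicit false

namespace Pool.Agent.Results.MP_70f7a7_an.CompactMotionsAllEnergies

open Pool.Agent.Q205.Liou.Spatial

/-- **Theorem.** For the spatial `N`-body problem with positive masses `m`, reduced by the centre of
mass:

1. almost every initial condition whose forward solution stays in a compact set of collision free
   phase points is recurrent;
2. Herman's assertion has the same truth value for all negative energies;
3. if `U` is open, contains a point of the reduced phase space with negative energy, and the points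
   with compact forward solution do not form a null set in any nonempty open subset of `U`, then on
   EVERY energy surface with negative energy there is a nonempty open set of nonwandering points in
   which recurrent points are dense;
4. the same holds if some compact set of the reduced phase space that contains a point of negative
   energy is Lyapunov stable. -/
theorem result {N : ℕ} (m : Fin N → ℝ) (hm : ∀ i, 0 < m i) :
    AlmostEvery m (fun z => CompactForward m z → RecurrentForward m z) ∧
    (∀ E E' : ℝ, E < 0 → E' < 0 → (HermanAt m E ↔ HermanAt m E')) ∧
    (∀ U : Set (Phase N), IsOpen U → (∃ z ∈ U, Free z ∧ IsCom m z ∧ energy m z < 0) →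
      LocallyPositive m U → ∀ E : ℝ, E < 0 → OpenNonwandering m E) ∧
    (∀ K : Set (Phase N), IsCompact K → (∀ z ∈ K, Free z ∧ IsCom m z) → Stable m K →
      (∃ z ∈ K, energy m z < 0) → ∀ E : ℝ, E < 0 → OpenNonwandering m E) :=
  ⟨rec_of_comp fun i => (hm i).ne', fun _ _ hE hE' => ⟨herman_of hE hE', herman_of hE' hE⟩,
    fun _ hU hUn hpos _ hE => open_nonwandering (fun i => (hm i).ne') hU hUn hpos hE,
    fun _ hK hKf hst hKn _ hE => stable_nonwandering (fun i => (hm i).ne') hK hKf hst hKn hE⟩

end Pool.Agent.Results.MP_70f7a7_an.CompactMotionsAllEnergies
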