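import Pool.Agent.Q205.Wand.Family

/-!
# Herman's question for generic masses

`𝓕` is a Baire space of parameters (for instance the masses `(m_1, ..., m_N) ∈ (0, ∞)^N`), `X` a
space with countable basis (a model of the energy surfaces) and `Φ.φ f` a family of complete flows on
`X`, jointly continuous in the parameter, the time and the point.

* `Wandering φ x`: some neighbourhood of `x` does not meet its images at large times;
* `StablyWandering Φ f x`: the same with one neighbourhood of `x` and one time bound for all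
  parameters near `f`;
* `Recurrent φ x`: the orbit returns to every neighbourhood of `x` at arbitrarily large times;
  `rev φ` is the flow with the time reversed.
-/

set_option autoImplicit false

namespace Pool.Agent.Results.MP_70f7a7_an.GenericMasses

open Filter Topology Set Pool.Agent.Q205.Wand

/-- the assertion of the question: the set of nonwandering points is nowhere dense -/
def NonwanderingNowhereDense {X : Type*} [TopologicalSpace X] (φ : ℝ → X → X) : Prop :=
  IsNowhereDense {x | ¬ Wandering φ x}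

theorem isOpen_wandering {X : Type*} [TopologicalSpace X] (φ : ℝ → X → X) :
    IsOpen {x | Wandering φ x} := by
  rw [isOpen_iff_mem_nhds]
  rintro x ⟨V, hV, hx, T, hT⟩
  filter_upwards [hV.mem_nhds hx] with y hy
  exact ⟨V, hV, hy, T, hT⟩

theorem nnd_iff {X : Type*} [TopologicalSpace X] (φ : ℝ → X → X) :
    NonwanderingNowhereDense φ ↔ Dense {x | Wandering φ x} := by
  have hc : IsClosed {x | ¬ Wandering φ x} := (isOpen_wandering φ).isClosed_compl
  unfold NonwanderingNowhereDense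
  rw [hc.isNowhereDense_iff, interior_eq_empty_iff_dense_compl]
  have : {x | ¬ Wandering φ x}ᶜ = {x | Wandering φ x} := by ext x; simp
  rw [this]

/-- **Theorem.**
1. The following are equivalent: for generic `f` the nonwandering set of `Φ f` is nowhere dense; the
   set of the `f` for which it is nowhere dense is nonmeagre in every nonempty open set; the stably
   wandering pairs `(f, x)` are dense in `𝓕 × X`.
2. If these conditions do not hold, there are nonempty open sets `𝓥` of parameters and `V` of points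
   such that for generic `f ∈ 𝓥` all points of `V` are nonwandering, and generic points of `V` are
   recurrent in both directions of time. -/
theorem result {𝓕 X : Type*} [TopologicalSpace 𝓕] [BaireSpace 𝓕] [TopologicalSpace X]
    [SecondCountableTopology X] (Φ : FlowFamily 𝓕 X) :
    ((∀ᶠ f in residual 𝓕, NonwanderingNowhereDense (Φ.φ f)) ↔
      Dense {z : 𝓕 × X | StablyWandering Φ z.1 z.2}) ∧
    ((∀ 𝓥 : Set 𝓕, IsOpen 𝓥 → 𝓥.Nonempty → ¬ IsMeagre {f | f ∈ 𝓥 ∧
        NonwanderingNowhereDense (Φ.φ f)}) ↔ Dense {z : 𝓕 × X | StablyWandering Φ z.1 z.2}) ∧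
    ((¬ ∀ᶠ f in residual 𝓕, NonwanderingNowhereDense (Φ.φ f)) →
      ∃ 𝓥 : Set 𝓕, IsOpen 𝓥 ∧ 𝓥.Nonempty ∧ ∃ V : Set X, IsOpen V ∧ V.Nonempty ∧
        ∀ᶠ f in residual 𝓕, f ∈ 𝓥 → (∀ x ∈ V, ¬ Wandering (Φ.φ f) x) ∧
          ∀ᶠ x in residual X, x ∈ V → Recurrent (Φ.φ f) x ∧ Recurrent (rev (Φ.φ f)) x) := by
  have hgen := generic_wandering Φ
  -- density of stably wandering pairs gives the generic statement
  have hA : Dense {z : 𝓕 × X | StablyWandering Φ z.1 z.2} →
      ∀ᶠ f in residual 𝓕, NonwanderingNowhereDense (Φ.φ f) := by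
    intro hd
    set ℬ := TopologicalSpace.countableBasis X
    haveI : Countable ℬ := (TopologicalSpace.countable_countableBasis X).to_subtype
    have key : ∀ B : ℬ, ∀ᶠ f in residual 𝓕, ∃ x ∈ (B : Set X), Wandering (Φ.φ f) x := by
      intro B
      have hBo : IsOpen (B : Set X) := TopologicalSpace.isOpen_of_mem_countableBasis B.2
      have hBne : (B : Set X).Nonempty := TopologicalSpace.nonempty_of_mem_countableBasis B.2
      set O : Set 𝓕 := {f | ∃ x ∈ (B : Set X), StablyWandering Φ f x} with hO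
      have hOo : IsOpen O := by
        have : O = Prod.fst '' ({z : 𝓕 × X | StablyWandering Φ z.1 z.2} ∩
            (univ ×ˢ (B : Set X))) := by
          ext f
          simp only [hO, mem_setOf_eq, mem_image, mem_inter_iff, mem_prod, mem_univ, true_and,
            Prod.exists, exists_and_right, exists_eq_right]
          constructor
          · rintro ⟨x, hx, hs⟩
            exact ⟨x, hs, hx⟩
          · rintro ⟨x, hs, hx⟩
            exact ⟨x, hx, hs⟩
        rw [this]
        exact isOpenMap_fst _ ((isOpen_stably Φ).inter (isOpen_univ.prod hBo))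
      have hOd : Dense O := by
        rw [dense_iff_inter_open]
        intro W hW hne
        obtain ⟨⟨f, x⟩, hz1, hz2⟩ := hd.inter_open_nonempty (W ×ˢ (B : Set X)) (hW.prod hBo)
          (hne.prod hBne)
        exact ⟨f, hz1.1, x, hz1.2, hz2⟩
      filter_upwards [residual_of_dense_open hOo hOd] with f hf
      obtain ⟨x, hx, hs⟩ := hf
      exact ⟨x, hx, wandering_of_stably hs⟩
    have hall : ∀ᶠ f in residual 𝓕, ∀ B : ℬ, ∃ x ∈ (B : Set X), Wandering (Φ.φ f) x :=
      eventually_countable_forall.2 key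
    filter_upwards [hall] with f hf
    rw [nnd_iff, (TopologicalSpace.isBasis_countableBasis X).dense_iff]
    intro o ho hne
    obtain ⟨x, hx, hw⟩ := hf ⟨o, ho⟩
    exact ⟨x, hx, hw⟩
  -- nonmeagre in every open set gives density
  have hB : (∀ 𝓥 : Set 𝓕, IsOpen 𝓥 → 𝓥.Nonempty → ¬ IsMeagre {f | f ∈ 𝓥 ∧
        NonwanderingNowhereDense (Φ.φ f)}) → Dense {z : 𝓕 × X | StablyWandering Φ z.1 z.2} := by
    intro h
    rw [dense_iff_inter_open]
    intro W hW hne
    obtain ⟨⟨f0, x0⟩, h0⟩ := hne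
    obtain ⟨𝓥, V, h𝓥, hVo, hf0, hx0, hsub⟩ := isOpen_prod_iff.1 hW f0 x0 h0
    have h1 := h 𝓥 h𝓥 ⟨f0, hf0⟩
    have h2 : ∃ f ∈ 𝓥, NonwanderingNowhereDense (Φ.φ f) ∧
        ∀ x, Wandering (Φ.φ f) x → StablyWandering Φ f x := by
      by_contra hno
      push_neg at hno
      apply h1
      unfold IsMeagre
      filter_upwards [hgen] with f hf
      rintro ⟨hf1, hf2⟩
      obtain ⟨x, hx1, hx2⟩ := hno f hf1 hf2
      exact hx2 (hf x hx1)
    obtain ⟨f, hf, hn, hs⟩ := h2
    obtain ⟨x, hxV, hxw⟩ := ((nnd_iff _).1 hn).inter_open_nonempty V hVo ⟨x0, hx0⟩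
    exact ⟨(f, x), hsub ⟨hf, hxV⟩, hs x hxw⟩
  have hC : (∀ᶠ f in residual 𝓕, NonwanderingNowhereDense (Φ.φ f)) →
      (∀ 𝓥 : Set 𝓕, IsOpen 𝓥 → 𝓥.Nonempty → ¬ IsMeagre {f | f ∈ 𝓥 ∧
        NonwanderingNowhereDense (Φ.φ f)}) := by
    intro h 𝓥 h𝓥 hne hm
    unfold IsMeagre at hm
    obtain ⟨f, hf𝓥, hf1, hf2⟩ := (dense_of_mem_residual (h.and hm)).inter_open_nonempty 𝓥 h𝓥 hne
    exact hf2 ⟨hf𝓥, hf1⟩
  refine ⟨⟨fun h => hB (hC h), hA⟩, ⟨hB, fun h => hC (hA h)⟩, ?_⟩
  intro hneg
  have hnd : ¬ Dense {z : 𝓕 × X | StablyWandering Φ z.1 z.2} := fun h => hneg (hA h)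
  have hne : ((closure {z : 𝓕 × X | StablyWandering Φ z.1 z.2})ᶜ).Nonempty := by
    by_contra hemp
    rw [Set.not_nonempty_iff_eq_empty, Set.compl_empty_iff] at hemp
    exact hnd (dense_iff_closure_eq.2 hemp)
  obtain ⟨⟨f0, x0⟩, h0⟩ := hne
  obtain ⟨𝓥, V, h𝓥, hVo, hf0, hx0, hsub⟩ := isOpen_prod_iff.1 isClosed_closure.isOpen_compl f0 x0 h0
  refine ⟨𝓥, h𝓥, ⟨f0, hf0⟩, V, hVo, ⟨x0, hx0⟩, ?_⟩
  filter_upwards [hgen] with f hf hf𝓥
  have hw : ∀ x ∈ V, ¬ Wandering (Φ.φ f) x := by
    intro x hx hxw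
    have h1 : (f, x) ∈ {z : 𝓕 × X | StablyWandering Φ z.1 z.2} := hf x hxw
    exact hsub (show (f, x) ∈ 𝓥 ×ˢ V from ⟨hf𝓥, hx⟩) (subset_closure h1)
  refine ⟨hw, ?_⟩
  have h1 := residual_recurrent (Φ.isFlow f) hVo hw
  have h2 := residual_recurrent (Φ.isFlow f).rev hVo
    (fun x hx => fun h => hw x hx ((wandering_rev (Φ.isFlow f) x).1 h))
  filter_upwards [h1, h2] with x hx1 hx2 hxV
  exact ⟨hx1 hxV, hx2 hxV⟩

end Pool.Agent.Results.MP_70f7a7_an.GenericMasses
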