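import Pool.Agent.Q205.Liou.Herm3

/-!
# The spatial `N`-body problem: Hopf's dichotomy and consequences of Herman's assertion

The definitions are in `Pool/Agent/Q205/Liou/{Spatial,Herm,Herm2,Herm3}.lean` and are those of the
problem (and of its frozen statements):

* `Phase N`, positions and momenta of `N` bodies in `R3`; `hvf m`, the Hamiltonian vector field;
  `Free z`, no collisions; `IsCom m z`, centre of mass `0` and total momentum `0`; `energy m z`;
  `IsSol m J y`, `y` is a solution of the reduced problem on the time set `J`;
* `surface m E`, the energy surface; `IsReparametrizedFlow m E ψ φ`, `φ` is the complete flow on
  `surface m E` obtained by the smooth positive change of time `ψ`; `IsNonwandering`;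
  `NowhereDenseNonwandering m E φ`, the nonwandering set of `φ` is nowhere dense in `surface m E`;
* `RecurrentForward m z`: the solution starting at `z` exists for all positive times and returns
  arbitrarily close to `z` at arbitrarily large times;
* `LeavesForward m z`: if the solution starting at `z` exists for all positive times, then for every
  compact set `K` of collision free phase points it is outside `K` from some time on (`Leaves`);
* `AlmostEvery m P`: in linear coordinates on the space `IsCom m` the property `P` holds Lebesgue
  almost everywhere.
-/

set_option autoImplicit false

namespace Pool.Agent.Results.MP_70f7a7_an.HopfDichotomy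

open Pool.Agent.Q205.Liou.Spatial

/-- **Theorem.** For the spatial `N`-body problem with positive masses `m`, reduced by the centre of
mass:

1. almost every initial condition is recurrent, or its solution, if it exists for all positive times,
   leaves every compact set of collision free phase points for good;
2. if for one negative energy `E` and one complete reparametrized flow on the energy surface the
   nonwandering set is nowhere dense, then every open set which contains a point of the reduced phase
   space with negative energy contains an open set `V`, which contains such a point too, such that
   for almost every initial condition in `V` the solution, if it exists for all positive times,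
   leaves every compact set of collision free phase points for good. -/
theorem result {N : ℕ} (m : Fin N → ℝ) (hm : ∀ i, 0 < m i) :
    AlmostEvery m (fun z => RecurrentForward m z ∨ LeavesForward m z) ∧
    ∀ E : ℝ, E < 0 → ∀ (ψ : Phase N → ℝ) (φ : ℝ → Phase N → Phase N),
      IsReparametrizedFlow m E ψ φ → NowhereDenseNonwandering m E φ →
      ∀ U : Set (Phase N), IsOpen U → (∃ z ∈ U, Free z ∧ IsCom m z ∧ energy m z < 0) →
        ∃ V : Set (Phase N), IsOpen V ∧ V ⊆ U ∧
          (∃ z ∈ V, Free z ∧ IsCom m z ∧ energy m z < 0) ∧
          AlmostEvery m (fun z => z ∈ V → LeavesForward m z) :=
  ⟨hopf_spatial fun i => (hm i).ne', fun _ hE _ _ hφ hn _ hU hUn =>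
    herman_leaves (fun i => (hm i).ne') hE hφ hn hU hUn⟩

end Pool.Agent.Results.MP_70f7a7_an.HopfDichotomy
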